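import Pool.Agent.helper24_UT.Ch18
import Pool.Agent.helper24_UT.R2

set_option autoImplicit false

/-!
# Almost all odd `n` are `f(p₁) + p₂` with `p₁ ≤ N ^ (1/6 + ε)`, `f` a monic quadratic polynomial

Let `f(x) = x² + b x + c` be admissible (`b + c` odd, `3 ∤ b`), let `ε > 0` and `A` be fixed and let `N` be large. For all but at most `N / (log N) ^ A` of the odd
integers `n ≤ N` the number of the representations `n = f(p₁) + p₂` (more precisely `± p₂`) with `p₁ ≤ y`, weighted by `log p₁ log p₂`, is `y` times the Euler product over the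
primes `w ≤ z` up to the error `y / (log N) ^ A`, for ALL `y` with `N ^ (1 / 3 + ε) ≤ y ^ 2 ≤ N`, and the Euler product is at least `1 / log N`; so there
are representations with `p₁ ≤ N ^ (1 / 6 + ε)`. For arbitrary weights `u(m)`, for instance the logarithm on an arbitrary set of primes, the sum of `u(m) log |n - f(m)|`
over the `m` with `|n - f(m)|` prime is compared with the sum over the `m` for which `n - f(m)` is free of prime factors `≤ z`, for almost all `n`, all `y` and, in mean
square, in all residue classes to all moduli `q ≤ y / (log N) ^ B`.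

Proof. The values of `f` have nearly minimal additive energy, so the correlations of the primes minus their sieve model along
`n - f(m)`, with arbitrary weights on the `m ≤ y`, are bounded by the mean square of exponential sums over primes in intervals of
length `y²` (`Pool.Agent.helper24_UT.Ch.t_MKT`, the method of Mikawa, `y² ≥ N ^ (1 / 3 + ε)`); the weights are `log m` on the primes.
-/

namespace Pool.Agent.Results.MP_d9bc60_nt.SmallPrimeArguments

open Finset Polynomial

/-- the polynomial `f(x) = x² + b x + c` of the problem -/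
def f (b c x : ℤ) : ℤ := x ^ 2 + b * x + c

/-- the number of the `t`, `0 < t < w`, with `f(t) ≡ n (mod w)` -/
noncomputable def roots (b c n : ℤ) (w : ℕ) : ℕ := ((range w).filter (fun t : ℕ => ¬ w ∣ t ∧ (w : ℤ) ∣ n - f b c t)).card

/-- the Euler product over the primes `w ≤ z` -/
noncomputable def product (b c n : ℤ) (z : ℕ) : ℝ :=
  ∏ w ∈ (Icc 1 z).filter Nat.Prime, (1 - (roots b c n w : ℝ) / ((w : ℝ) - 1)) / (1 - 1 / (w : ℝ))

/-- the sum of `log p log |n - f(p)|` over the primes `p ≤ y` for which `|n - f(p)|` is prime -/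
noncomputable def theta (b c n : ℤ) (y : ℕ) : ℝ :=
  ∑ p ∈ (Icc 1 y).filter (fun p : ℕ => p.Prime ∧ (n - f b c p).natAbs.Prime),
    Real.log p * Real.log ((n - f b c p).natAbs : ℝ)

/-- The Euler product is at least `1 / log N`, and for all `y` with `N ^ (1 / 3 + ε) ≤ y ^ 2 ≤ N` the sum `theta` is `y` times the Euler product with an error at most
`y / (log N) ^ A`, and, if `3 y ^ 2 ≤ n`, there are primes `p₁ ≤ y` and `p₂` with `n = f(p₁) + p₂`. -/
def Good (ε : ℝ) (A N z : ℕ) (b c n : ℤ) : Prop :=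
  1 / Real.log N ≤ product b c n z ∧
  ∀ y : ℕ, (N : ℝ) ^ (1 / 3 + ε) ≤ (y : ℝ) ^ 2 → y ^ 2 ≤ N → |theta b c n y - y * product b c n z| ≤ y / Real.log N ^ A ∧
    (3 * (y : ℤ) ^ 2 ≤ n → ∃ p₁ p₂ : ℕ, p₁ ≤ y ∧ p₁.Prime ∧ p₂.Prime ∧ n = f b c p₁ + p₂)

/-- `log |n - f(m)|` if `|n - f(m)|` is a prime, `0` otherwise -/
noncomputable def lp (b c n : ℤ) (m : ℕ) : ℝ :=
  if (n - f b c m).natAbs.Prime then Real.log ((n - f b c m).natAbs : ℝ) else 0

open Classical in
/-- the sieve model: the inverse of `∏_{p ≤ z} (1 - 1 / p)` if `n - f(m)` has no prime factor `p ≤ z`, `0` otherwise -/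
noncomputable def model (z : ℕ) (b c n : ℤ) (m : ℕ) : ℝ :=
  if ∀ p ∈ (Icc 1 z).filter Nat.Prime, ¬ (p : ℤ) ∣ n - f b c m then
    (∏ p ∈ (Icc 1 z).filter Nat.Prime, (1 - 1 / (p : ℝ)))⁻¹ else 0

/-- For the weights `u(m)`: for all `y` with `N ^ (1 / 3 + ε) ≤ y ^ 2 ≤ N`, all `Q ≤ y / (log N) ^ B` and all `w q s ≤ y` the sum,
over all `q ≤ Q` and all classes `s` modulo `q`, of the squares of the sums of `u(m) (lp - model)` over the `m ≤ w q s`,
`m ≡ s (mod q)`, is at most `y ^ 2 / (log N) ^ A`. -/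
def GoodW (ε : ℝ) (A B N z : ℕ) (u : ℕ → ℝ) (b c n : ℤ) : Prop :=
  ∀ y : ℕ, (N : ℝ) ^ (1 / 3 + ε) ≤ (y : ℝ) ^ 2 → y ^ 2 ≤ N →
    ∀ Q : ℕ, (Q : ℝ) * Real.log N ^ B ≤ y → ∀ w : ℕ → ℕ → ℕ, (∀ q s, w q s ≤ y) →
      ∑ q ∈ Icc 1 Q, ∑ s ∈ range q, (∑ m ∈ (Icc 1 (w q s)).filter (fun m => m % q = s),
        u m * (lp b c n m - model z b c n m)) ^ 2 ≤ (y : ℝ) ^ 2 / Real.log N ^ A

/-- the polynomial `- f` -/
noncomputable def Fp (b c : ℤ) : Fin 1 → ℤ[X] := fun _ => -(X ^ 2 + C b * X + C c)

lemma Fp_deg (b c : ℤ) (i : Fin 1) : (Fp b c i).natDegree = 2 := by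
  unfold Fp
  rw [natDegree_neg]
  compute_degree!

lemma Fp_eval (b c : ℤ) (i : Fin 1) (m : ℤ) : (Fp b c i).eval m = -f b c m := by
  unfold Fp f
  simp

lemma product_eq (b c n : ℤ) (z : ℕ) : Pool.Agent.helper24_UT.sgp z (fun i : Fin 1 => Fp b c i + C n) = product b c n z := by
  classical
  unfold Pool.Agent.helper24_UT.sgp product
  apply prod_congr rfl
  intro w _
  rw [pow_one]
  congr 3
  unfold Pool.Agent.helper24_UT.omp roots
  congr 2
  ext t
  simp only [mem_filter]
  apply and_congr_right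
  intro _
  apply and_congr_right
  intro _
  have e : ∀ i : Fin 1, (Fp b c i + C n).eval (t : ℤ) = n - f b c t := by
    intro i
    rw [eval_add, Fp_eval, eval_C]
    ring
  constructor
  · rintro ⟨i, hi⟩
    rw [e] at hi
    exact hi
  · intro h
    refine ⟨0, ?_⟩
    rw [e]
    exact h

lemma theta_eq (b c : ℤ) (a : Fin 1 → ℤ) (y : ℕ) :
    Pool.Agent.helper24_UT.thU Pool.Agent.helper24_UT.lgP (Fp b c) a y = theta b c (a 0) y := by
  classical
  unfold Pool.Agent.helper24_UT.thU theta
  have e : ∀ (i : Fin 1) (n : ℕ), (Fp b c i).eval (n : ℤ) + a i = a 0 - f b c n := by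
    intro i n
    rw [Subsingleton.elim i 0, Fp_eval]
    ring
  have h1 : (Icc 1 y).filter (fun p : ℕ => p.Prime ∧ (a 0 - f b c p).natAbs.Prime) =
      ((Icc 1 y).filter (fun p : ℕ => (a 0 - f b c p).natAbs.Prime)).filter Nat.Prime := by
    rw [filter_filter]
    apply filter_congr
    intro p _
    rw [and_comm]
  rw [h1, sum_filter Nat.Prime]
  have h2 : (Icc 1 y).filter (fun n : ℕ => ∀ i, ((Fp b c i).eval (n : ℤ) + a i).natAbs.Prime) =
      (Icc 1 y).filter (fun p : ℕ => (a 0 - f b c p).natAbs.Prime) := by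
    apply filter_congr
    intro n _
    constructor
    · intro h
      have := h 0
      rw [e] at this
      exact this
    · intro h i
      rw [e]
      exact h
  rw [h2]
  apply sum_congr rfl
  intro n _
  rw [Fin.prod_univ_one, e]
  unfold Pool.Agent.helper24_UT.lgP
  split_ifs
  · rfl
  · rw [zero_mul]

lemma prW_eq (b c : ℤ) (a : Fin 1 → ℤ) (m : ℕ) : Pool.Agent.helper24_UT.prW (Fp b c) a m = lp b c (a 0) m := by
  classical
  unfold Pool.Agent.helper24_UT.prW lp
  have e : ∀ (i : Fin 1), (Fp b c i).eval (m : ℤ) + a i = a 0 - f b c m := by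
    intro i
    rw [Subsingleton.elim i 0, Fp_eval]
    ring
  by_cases h : (a 0 - f b c m).natAbs.Prime
  · rw [if_pos h, if_pos, Fin.prod_univ_one, e]
    intro i
    rw [e]
    exact h
  · rw [if_neg h, if_neg]
    intro h2
    have h3 := h2 0
    rw [e] at h3
    exact h h3

lemma lz_eq (z : ℕ) (b c : ℤ) (a : Fin 1 → ℤ) (m : ℕ) :
    ∏ i : Fin 1, Pool.Agent.helper24_UT.lz z ((Fp b c i).eval (m : ℤ) + a i) = model z b c (a 0) m := by
  classical
  have e : (Fp b c 0).eval (m : ℤ) + a 0 = a 0 - f b c m := by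
    rw [Fp_eval]
    ring
  rw [Fin.prod_univ_one, e]
  rfl

/-- no fixed prime divisor -/
lemma no_fixed (b c n : ℤ) (hbc : Odd (b + c)) (h3 : ¬ (3 : ℤ) ∣ b) (hn : Odd n) (p : ℕ) (hp : p.Prime) :
    ∃ m : ℤ, ¬ (p : ℤ) ∣ m ∧ ¬ (p : ℤ) ∣ n - f b c m := by
  have hpp : Prime (p : ℤ) := Nat.prime_iff_prime_int.1 hp
  rcases Nat.lt_or_ge p 5 with h5 | h5
  · have h23 : p = 2 ∨ p = 3 := by
      have := hp.two_le
      interval_cases p
      · exact Or.inl rfl
      · exact Or.inr rfl
      · exact absurd hp (by norm_num)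
    rcases h23 with rfl | rfl
    · refine ⟨1, hpp.not_dvd_one, ?_⟩
      unfold f
      push_cast
      obtain ⟨s, hs⟩ := hbc
      obtain ⟨t, ht⟩ := hn
      omega
    · by_contra hcon
      push Not at hcon
      have k1 := hcon 1 (by norm_num)
      have k2 := hcon 2 (by norm_num)
      unfold f at k1 k2
      push_cast at k1 k2
      omega
  · by_contra hcon
    push Not at hcon
    have hnd : ∀ m : ℤ, 0 < m → m < 5 → ¬ (p : ℤ) ∣ m := by
      intro m hm0 hm5 hd
      have := Int.le_of_dvd hm0 hd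
      omega
    have k1 := hcon 1 (hnd 1 (by norm_num) (by norm_num))
    have k2 := hcon 2 (hnd 2 (by norm_num) (by norm_num))
    have k3 := hcon 3 (hnd 3 (by norm_num) (by norm_num))
    have k4 : (p : ℤ) ∣ 2 := by
      have h6 := dvd_sub (dvd_sub k1 k2) (dvd_sub k2 k3)
      have e : (n - f b c 1 - (n - f b c 2) - (n - f b c 2 - (n - f b c 3)) : ℤ) = -2 := by
        unfold f
        ring
      rw [e] at h6
      exact (dvd_neg.1 h6)
    exact hnd 2 (by norm_num) (by norm_num) k4

open Classical in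
/-- **Almost all odd `n` are `f(p₁) + p₂` with small `p₁`**, with the expected number of representations; and arbitrary weights. -/
theorem result (b c : ℤ) (hbc : Odd (b + c)) (h3 : ¬ (3 : ℤ) ∣ b) (ε : ℝ) (hε : 0 < ε) (A T : ℕ) :
    ∃ E₀ B : ℕ, ∀ E₁ : ℕ, ∃ N₀ : ℕ, ∀ N : ℕ, N₀ ≤ N → ∀ z : ℕ,
    Real.log N ^ E₀ ≤ z → (z : ℝ) ≤ Real.log N ^ E₁ →
    (((Icc 1 (N : ℤ)).filter (fun n => Odd n ∧ ¬ Good ε A N z b c n)).card : ℝ) ≤ N / Real.log N ^ A ∧
    ∀ u : ℕ → ℝ, (∀ m, m ≤ N → |u m| ≤ Real.log N ^ T) →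
      (((Icc 1 (N : ℤ)).filter (fun n => ¬ GoodW ε A B N z u b c n)).card : ℝ) ≤ N / Real.log N ^ A := by
  obtain ⟨e, he⟩ := exists_nat_gt (1 / ε)
  have he0 : (0 : ℝ) < e := lt_trans (by positivity) he
  have he1 : 1 ≤ e := by exact_mod_cast he0
  have hle : 1 / (e : ℝ) ≤ ε := by
    rw [div_le_iff₀ he0]
    rw [div_lt_iff₀ hε] at he
    linarith
  obtain ⟨E₀, h⟩ := Pool.Agent.helper24_UT.Ch.t_R27 1 2 (Fp b c) (by norm_num) (Fp_deg b c) e (A + 2) he1
  obtain ⟨E₀', B, h'⟩ := Pool.Agent.helper24_UT.Ch.t_R36 1 2 (Fp b c) (by norm_num) (Fp_deg b c) e A T he1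
  refine ⟨max E₀ E₀', B, fun E₁ => ?_⟩
  obtain ⟨N₀, h0⟩ := h E₁
  obtain ⟨N₀', h0'⟩ := h' E₁
  obtain ⟨N₁, h1⟩ := Pool.Agent.helper24_UT.Low.main 2 2 E₁
  have hlog : Filter.Tendsto (fun N : ℕ => Real.log (N : ℝ)) Filter.atTop Filter.atTop :=
    Real.tendsto_log_atTop.comp tendsto_natCast_atTop_atTop
  have hpow : Filter.Tendsto (fun N : ℕ => (N : ℝ) ^ (1 / 3 : ℝ)) Filter.atTop Filter.atTop :=
    (tendsto_rpow_atTop (by norm_num)).comp tendsto_natCast_atTop_atTop
  obtain ⟨N₂, hN₂⟩ := Filter.eventually_atTop.1 ((hlog.eventually_ge_atTop 2).and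
    (hpow.eventually_ge_atTop (((|b| + |c| + 1 : ℤ) : ℝ) ^ 2)))
  refine ⟨max (max (max N₀ N₀') N₁) (max N₂ 1), fun N hN z hz1 hz2 => ?_⟩
  have hNN0 : N₀ ≤ N := (le_max_left _ _).trans ((le_max_left _ _).trans ((le_max_left _ _).trans hN))
  have hNN0' : N₀' ≤ N := (le_max_right _ _).trans ((le_max_left _ _).trans ((le_max_left _ _).trans hN))
  have hNN1 : N₁ ≤ N := (le_max_right _ _).trans ((le_max_left _ _).trans hN)
  obtain ⟨hL2, hbig⟩ := hN₂ N ((le_max_left _ _).trans ((le_max_right _ _).trans hN))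
  have hN1 : 1 ≤ N := (le_max_right _ _).trans ((le_max_right _ _).trans hN)
  have hN0 : (0 : ℝ) < N := by exact_mod_cast hN1
  have hL0 : 0 < Real.log N := by linarith
  have hz1a : Real.log N ^ E₀ ≤ z := (pow_le_pow_right₀ (by linarith) (le_max_left _ _)).trans hz1
  have hz1b : Real.log N ^ E₀' ≤ z := (pow_le_pow_right₀ (by linarith) (le_max_right _ _)).trans hz1
  have hrange : ∀ y : ℕ, (N : ℝ) ^ (1 / 3 + ε) ≤ (y : ℝ) ^ 2 → y ^ 2 ≤ N → Pool.Agent.helper24_UT.Yr (1 / 3) e N 2 y := by
    intro y hy1 hy2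
    exact ⟨(Real.rpow_le_rpow_of_exponent_le (by exact_mod_cast hN1) (by linarith)).trans hy1, hy2⟩
  constructor
  · have key := h0 N hNN0 z hz1a hz2
    rw [pow_one] at key
    refine le_trans ?_ (key.trans ?_)
    · refine Nat.cast_le.2 ?_
      refine card_le_card_of_injOn (fun n => (fun _ : Fin 1 => n)) ?_ (fun a _ b _ hab => congrFun hab 0)
      intro n hn
      have hn := mem_filter.1 (mem_coe.1 hn)
      have hn1 := mem_Icc.1 hn.1
      rw [mem_coe, mem_filter, Fintype.mem_piFinset]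
      refine ⟨fun _ => mem_Icc.2 (show -(N : ℤ) ≤ n ∧ n ≤ (N : ℤ) from ⟨by omega, hn1.2⟩), ?_⟩
      by_contra hcon
      push Not at hcon
      apply hn.2.2
      have hform : ∀ y : ℕ, (N : ℝ) ^ (1 / 3 + ε) ≤ (y : ℝ) ^ 2 → y ^ 2 ≤ N →
          |theta b c n y - y * product b c n z| ≤ y / Real.log N ^ (A + 2) := by
        intro y hy1 hy2
        have h4 := hcon y (hrange y hy1 hy2)
        rw [theta_eq, product_eq] at h4
        exact h4
      have hlow : 1 / Real.log N ≤ product b c n z := by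
        rw [← product_eq, Pool.Agent.helper24_UT.R2.sgp_eq_sg]
        apply h1 N hNN1 z hz2
        · intro i
          refine Fin.cases ?_ (fun j => ?_) i
          · rw [Fin.cons_zero, natDegree_X]
            norm_num
          · rw [Fin.cons_succ, natDegree_add_C]
            exact (Fp_deg b c j).le
        · intro p hp
          obtain ⟨m, hm1, hm2⟩ := no_fixed b c n hbc h3 hn.2.1 p hp
          refine ⟨m, fun i => ?_⟩
          refine Fin.cases ?_ (fun j => ?_) i
          · rw [Fin.cons_zero, eval_X]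
            exact hm1
          · rw [Fin.cons_succ, eval_add, Fp_eval, eval_C, neg_add_eq_sub]
            exact hm2
      refine ⟨hlow, fun y hy1 hy2 => ⟨(hform y hy1 hy2).trans ?_, fun hyn => ?_⟩⟩
      · apply div_le_div_of_nonneg_left (Nat.cast_nonneg _) (by positivity)
        exact pow_le_pow_right₀ (by linarith) (by omega)
      · have h4 := hform y hy1 hy2
        have hybig : ((|b| + |c| + 1 : ℤ) : ℝ) ≤ y := by
          have h5 : (((|b| + |c| + 1 : ℤ) : ℝ)) ^ 2 ≤ (y : ℝ) ^ 2 := by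
            refine hbig.trans (le_trans ?_ hy1)
            exact Real.rpow_le_rpow_of_exponent_le (by exact_mod_cast hN1) (by linarith)
          exact (pow_le_pow_iff_left₀ (by positivity) (Nat.cast_nonneg _) (by norm_num)).1 h5
        have hybig' : |b| + |c| + 1 ≤ (y : ℤ) := by exact_mod_cast hybig
        have hy0' : 0 < (y : ℤ) := by
          have := abs_nonneg b
          have := abs_nonneg c
          omega
        have hy0 : (0 : ℝ) < y := by exact_mod_cast hy0'
        have hpos : 0 < theta b c n y := by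
          rw [abs_le] at h4
          have h5 : (y : ℝ) / Real.log N ^ (A + 2) < y * product b c n z := by
            calc (y : ℝ) / Real.log N ^ (A + 2) < y * (1 / Real.log N) := by
                  rw [mul_one_div]
                  apply div_lt_div_of_pos_left hy0 hL0
                  calc Real.log N = Real.log N ^ 1 := (pow_one _).symm
                    _ < Real.log N ^ (A + 2) := pow_lt_pow_right₀ (by linarith) (by omega)
              _ ≤ _ := mul_le_mul_of_nonneg_left hlow hy0.le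
          linarith [h4.1]
        by_contra hno
        push Not at hno
        have hz : theta b c n y = 0 := by
          unfold theta
          rw [filter_false_of_mem, sum_empty]
          intro p hp hcon2
          have hp1 := mem_Icc.1 hp
          have hpy : (p : ℤ) ≤ y := by exact_mod_cast hp1.2
          have hp0 : (0 : ℤ) ≤ p := by positivity
          have h6 : f b c p < n := by
            unfold f
            have hb : b * p ≤ |b| * p := mul_le_mul_of_nonneg_right (le_abs_self b) hp0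
            have hb2 : |b| * (p : ℤ) ≤ |b| * y := mul_le_mul_of_nonneg_left hpy (abs_nonneg b)
            have hcc : c ≤ |c| := le_abs_self c
            have hc0 := abs_nonneg c
            have hb0 := abs_nonneg b
            have hpp : (p : ℤ) ^ 2 ≤ (y : ℤ) ^ 2 := pow_le_pow_left₀ hp0 hpy 2
            have hs : |b| * (y : ℤ) + |c| < 2 * (y : ℤ) ^ 2 := by nlinarith
            linarith
          have h7 : (n - f b c p).natAbs = (n - f b c p).toNat := by
            have : 0 ≤ n - f b c p := by linarith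
            omega
          refine hno p (n - f b c p).toNat hp1.2 hcon2.1 (by rw [← h7]; exact hcon2.2) ?_
          rw [Int.toNat_of_nonneg (by linarith)]
          ring
        linarith
    · apply div_le_div_of_nonneg_left hN0.le (by positivity)
      exact pow_le_pow_right₀ (by linarith) (by omega)
  · intro u hu
    have key := h0' N hNN0' z hz1b hz2 u hu
    rw [pow_one] at key
    refine le_trans ?_ key
    refine Nat.cast_le.2 ?_
    refine card_le_card_of_injOn (fun n => (fun _ : Fin 1 => n)) ?_ (fun a _ b _ hab => congrFun hab 0)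
    intro n hn
    have hn := mem_filter.1 (mem_coe.1 hn)
    have hn1 := mem_Icc.1 hn.1
    rw [mem_coe, mem_filter, Fintype.mem_piFinset]
    refine ⟨fun _ => mem_Icc.2 (show -(N : ℤ) ≤ n ∧ n ≤ (N : ℤ) from ⟨by omega, hn1.2⟩), ?_⟩
    by_contra hcon
    push Not at hcon
    apply hn.2
    intro y hy1 hy2 Q hQ w hw
    have h4 := hcon y (hrange y hy1 hy2) Q hQ w hw
    simp only [prW_eq, lz_eq] at h4
    exact h4

end Pool.Agent.Results.MP_d9bc60_nt.SmallPrimeArguments
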